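import Mathlib
import Pool.Agent.H567R3.SD.Main

set_option autoImplicit false

/-!
# Simultaneous domination of two graphs with piece factors

Two graphs on the same `n` vertices, each of which satisfies Hall's condition for neighbourhoods
or has a partition of its vertex set into paths (on two or at least four vertices) and triangles,
have a common dominating set of size at most `3n/5`.
-/

namespace Pool.Agent.Results.MP_11624f_co.PieceFactors

/-- Hall's condition: every set `X` of vertices has at least `|X|` neighbours. -/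
def HallCondition {V : Type*} [Fintype V] (F : SimpleGraph V) : Prop :=
  ∀ X : Finset V, ∃ Y : Finset V, X.card ≤ Y.card ∧ ∀ y ∈ Y, ∃ x ∈ X, F.Adj x y

/-- `p` is the vertex list of a path of `F` with two or at least four vertices, or of a
triangle of `F`. -/
def IsPiece {V : Type*} (F : SimpleGraph V) (p : List V) : Prop :=
  p.Nodup ∧ p.IsChain F.Adj ∧
    (p.length = 2 ∨ 4 ≤ p.length ∨ ∃ a b c, p = [a, b, c] ∧ F.Adj c a)

/-- The vertex set can be partitioned into pieces. -/
def HasPieceFactor {V : Type*} (F : SimpleGraph V) : Prop :=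
  ∃ L : List (List V), (∀ p ∈ L, IsPiece F p) ∧ L.flatten.Nodup ∧ ∀ v, v ∈ L.flatten

/-- If each of `F₁`, `F₂` satisfies Hall's condition or has a piece factor, then some set of at
most `3n/5` vertices dominates both. -/
theorem result {V : Type*} [Fintype V] (F₁ F₂ : SimpleGraph V)
    (h₁ : HallCondition F₁ ∨ HasPieceFactor F₁) (h₂ : HallCondition F₂ ∨ HasPieceFactor F₂) :
    ∃ S : Finset V, 5 * S.card ≤ 3 * Fintype.card V ∧
      ∀ v, (v ∈ S ∨ ∃ u ∈ S, F₁.Adj v u) ∧ (v ∈ S ∨ ∃ u ∈ S, F₂.Adj v u) := by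
  classical
  have k₁ : ∃ B, Pool.Agent.H567R3.SD.Flex F₁ Finset.univ B :=
    h₁.elim (fun h => Pool.Agent.H567R3.SD.flex_hall F₁ h)
      (fun h => Pool.Agent.H567R3.SD.flex_factor F₁ h)
  have k₂ : ∃ B, Pool.Agent.H567R3.SD.Flex F₂ Finset.univ B :=
    h₂.elim (fun h => Pool.Agent.H567R3.SD.flex_hall F₂ h)
      (fun h => Pool.Agent.H567R3.SD.flex_factor F₂ h)
  obtain ⟨B₁, hB₁⟩ := k₁
  obtain ⟨B₂, hB₂⟩ := k₂
  exact Pool.Agent.H567R3.SD.main_flex F₁ F₂ hB₁ hB₂

end Pool.Agent.Results.MP_11624f_co.PieceFactors
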